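import Pool.Agent.H59.PG.Stmts

/-!
# Parity games, row EVD: evaluation of a game without choices
-/

set_option autoImplicit false

namespace Pool.PG

namespace EVD

open Filter

lemma evb_succ (n : ℕ) : evb (n + 1) = !evb n := rfl

lemma evb_iff (n : ℕ) : evb n = true ↔ Even n := by
  induction n with
  | zero => simp [evb]
  | succ n ih =>
    rw [evb_succ, Nat.even_add_one, ← ih]
    cases evb n <;> simp

lemma foldl_min_le (l : List ℕ) (a : ℕ) : l.foldl min a ≤ a ∧ ∀ b ∈ l, l.foldl min a ≤ b := by
  induction l generalizing a with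
  | nil => exact ⟨le_rfl, fun b hb => by simp at hb⟩
  | cons c l ih =>
    obtain ⟨h1, h2⟩ := ih (min a c)
    refine ⟨h1.trans (min_le_left _ _), fun b hb => ?_⟩
    rcases List.mem_cons.1 hb with rfl | hb
    · exact h1.trans (min_le_right _ _)
    · exact h2 b hb

lemma foldl_min_mem (l : List ℕ) (a : ℕ) : l.foldl min a = a ∨ l.foldl min a ∈ l := by
  induction l generalizing a with
  | nil => exact Or.inl rfl
  | cons c l ih =>
    rcases ih (min a c) with h | h
    · rcases le_total a c with hac | hac
      · exact Or.inl (by rw [List.foldl_cons, h, min_eq_left hac])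
      · exact Or.inr (by rw [List.foldl_cons, h, min_eq_right hac]; exact List.mem_cons_self)
    · exact Or.inr (List.mem_cons_of_mem _ h)

lemma mnl_le (l : List ℕ) : ∀ b ∈ l, mnl l ≤ b := (foldl_min_le l _).2

lemma mnl_mem (l : List ℕ) (hl : l ≠ []) : mnl l ∈ l := by
  rcases foldl_min_mem l (l.headD 0) with h | h
  · unfold mnl
    rw [h]
    cases l with
    | nil => exact absurd rfl hl
    | cons a t => exact List.mem_cons_self
  · exact h

/-- Pigeonhole: a self-map of `ℕ` keeping the numbers below `N` has a period `d`, `1 ≤ d ≤ N`, from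
time `N` on. -/
lemma exists_period (f : ℕ → ℕ) (N v : ℕ) (hv : v < N) (hf : ∀ u < N, f u < N) :
    ∃ d, 1 ≤ d ∧ d ≤ N ∧ ∀ n, N ≤ n → f^[n + d] v = f^[n] v := by
  have hlt : ∀ n, f^[n] v < N := by
    intro n
    induction n with
    | zero => exact hv
    | succ n ih => rw [Function.iterate_succ_apply']; exact hf _ ih
  have hpig : ∃ a ∈ Finset.range (N + 1), ∃ b ∈ Finset.range (N + 1), a ≠ b ∧
      f^[a] v = f^[b] v := by
    refine Finset.exists_ne_map_eq_of_card_lt_of_maps_to (t := Finset.range N) (by simp) ?_
    intro a _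
    exact Finset.mem_coe.2 (Finset.mem_range.2 (hlt a))
  have key : ∃ a b, a < b ∧ b ≤ N ∧ f^[a] v = f^[b] v := by
    obtain ⟨a, ha, b, hb, hne, hab⟩ := hpig
    rw [Finset.mem_range] at ha hb
    rcases lt_or_gt_of_ne hne with h | h
    · exact ⟨a, b, h, by omega, hab⟩
    · exact ⟨b, a, h, by omega, hab.symm⟩
  obtain ⟨a, b, hab, hb, he⟩ := key
  refine ⟨b - a, by omega, by omega, fun n hn => ?_⟩
  have e1 : n + (b - a) = (n - a) + b := by omega
  have e2 : n = (n - a) + a := by omega
  rw [e1, Function.iterate_add_apply, ← he, ← Function.iterate_add_apply, ← e2]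

end EVD

open Filter EVD in
/-- **EVD**. -/
theorem evd_row (h1 : SOLStmt) : EVDStmt := by
  intro g v hV hv hone
  obtain ⟨⟨σ, hσ⟩, -⟩ := h1 g hV
  have hsuc : ∀ u < g.length, suc g u = [nx g u] := by
    intro u hu
    obtain ⟨w, hw⟩ := hone u hu
    unfold nx
    rw [hw]
    rfl
  have hnx : ∀ u < g.length, nx g u < g.length := by
    intro u hu
    refine (hV u hu).2 _ ?_
    rw [hsuc u hu]
    exact List.mem_cons_self
  have hσn : ∀ u < g.length, σ u = nx g u := by
    intro u hu
    have := hσ.mem u hu
    rw [hsuc u hu] at this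
    simpa using this
  have hlt : ∀ n, (nx g)^[n] v < g.length := by
    intro n
    induction n with
    | zero => exact hv
    | succ n ih => rw [Function.iterate_succ_apply']; exact hnx _ ih
  have hplay : Play g v (fun n => (nx g)^[n] v) := by
    refine ⟨rfl, fun n => ?_⟩
    show (nx g)^[n + 1] v ∈ suc g ((nx g)^[n] v)
    rw [Function.iterate_succ_apply', hsuc _ (hlt n)]
    exact List.mem_cons_self
  obtain ⟨p, hp1, hp2, hp3⟩ := hσ.won v hv _ hplay (fun n _ => by
    show (nx g)^[n + 1] v = σ ((nx g)^[n] v)
    rw [Function.iterate_succ_apply', hσn _ (hlt n)])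
  obtain ⟨d, hd1, hd2, hper⟩ := exists_period (nx g) g.length v hv hnx
  have hperk : ∀ k n, g.length ≤ n → (nx g)^[n + k * d] v = (nx g)^[n] v := by
    intro k
    induction k with
    | zero => intro n _; simp
    | succ k ih =>
      intro n hn
      have e : n + (k + 1) * d = (n + k * d) + d := by ring
      rw [e, hper _ (by omega), ih n hn]
  have hne : ((List.range g.length).map fun i => pri g ((nx g)^[g.length + i] v)) ≠ [] := by
    intro h
    have h' := congrArg List.length h
    simp only [List.length_map, List.length_range, List.length_nil] at h'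
    omega
  have hpm : p = mnl ((List.range g.length).map fun i => pri g ((nx g)^[g.length + i] v)) := by
    apply le_antisymm
    · have hmem := mnl_mem _ hne
      obtain ⟨i, hi, hie⟩ := List.mem_map.1 hmem
      rw [← hie]
      obtain ⟨n₀, hn₀⟩ := eventually_atTop.1 hp2
      have h2 : p ≤ pri g ((nx g)^[g.length + i + n₀ * d] v) :=
        hn₀ (g.length + i + n₀ * d) (by nlinarith)
      rw [hperk n₀ (g.length + i) (by omega)] at h2
      exact h2
    · obtain ⟨n, hn, hpn⟩ := (frequently_atTop.1 hp1) g.length
      have hpn' : pri g ((nx g)^[n] v) = p := hpn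
      rw [← hpn']
      apply mnl_le
      refine List.mem_map.2 ⟨(n - g.length) % d, ?_, ?_⟩
      · rw [List.mem_range]
        exact (Nat.mod_lt _ (by omega)).trans_le hd2
      · have h3 := hperk ((n - g.length) / d) (g.length + (n - g.length) % d) (by omega)
        have e : g.length + (n - g.length) % d + (n - g.length) / d * d = n := by
          have := Nat.mod_add_div (n - g.length) d
          have h4 : (n - g.length) / d * d = d * ((n - g.length) / d) := Nat.mul_comm _ _
          omega
        rw [e] at h3
        rw [h3]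
  have hev : (win g v = true) ↔ (ev v g = true) := by
    unfold ev
    rw [evb_iff, ← hpm]
    exact hp3.symm
  cases h : win g v <;> cases h' : ev v g <;> simp_all

end Pool.PG
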