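import Pool.Agent.H59.PG.Stmts
import Pool.Agent.TM.Lib2

/-!
# Parity games, row PPR: pruning in polynomial time
-/

set_option autoImplicit false

namespace Pool.PG

namespace PPR

open TMLib TMLib.PTime

lemma take_append_drop_sz {β : Type} [Enc β] (l : List β) (k : ℕ) :
    sz (l.take k ++ l.drop (k + 1)) ≤ sz l := by
  have h1 := sz_append (l.take k) (l.drop k)
  rw [List.take_append_drop] at h1
  have h2 := sz_append (l.take k) (l.drop (k + 1))
  have h3 : sz (l.drop (k + 1)) ≤ sz (l.drop k) := by
    rw [← List.drop_drop]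
    exact sz_drop_le _ _
  omega

lemma sz_pr1_le (w : List Game → ℕ) (M : ℕ) (T : List Game) : sz (pr1 w M T) ≤ sz T := by
  unfold pr1
  split_ifs
  · exact le_rfl
  · rw [List.eraseIdx_eq_take_drop_succ]
    exact take_append_drop_sz _ _

lemma sz_iter_le (w : List Game → ℕ) (M i : ℕ) (T : List Game) :
    sz ((pr1 w M)^[i] T) ≤ sz T := by
  induction i with
  | zero => exact le_rfl
  | succ i ih =>
    rw [Function.iterate_succ_apply']
    exact (sz_pr1_le _ _ _).trans ih

variable {α : Type} [Enc α]

lemma pr1_ptime {w : α → List Game → ℕ} {M : α → ℕ}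
    (hw : PTime (fun p : α × List Game => w p.1 p.2)) (hM : PTime M) :
    PTime (fun p : α × List Game => pr1 (w p.1) (M p.1) p.2) := by
  have hT : PTime (fun p : α × List Game => p.2) := PTime.snd PTime.id
  have hMp : PTime (fun p : α × List Game => M p.1) := hM.comp (PTime.fst PTime.id)
  have hlen : PTime (fun p : α × List Game => p.2.length) := PTime.length hT
  have htk : PTime (fun p : α × List Game => p.2.take (M p.1)) := PTime.take hMp hT
  have hwp : PTime (fun p : α × List Game => w p.1 (p.2.take (M p.1))) :=
    hw.comp (f := fun p : α × List Game => (p.1, p.2.take (M p.1)))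
      (PTime.pair (PTime.fst PTime.id) htk)
  have her : PTime (fun p : α × List Game =>
      p.2.take (w p.1 (p.2.take (M p.1))) ++ p.2.drop (w p.1 (p.2.take (M p.1)) + 1)) :=
    PTime.append (PTime.take hwp hT) (PTime.drop (PTime.succ hwp) hT)
  refine (PTime.ite (c := fun p : α × List Game => p.2.length < M p.1)
    (PTime.lt hlen hMp) hT her).congr fun p => ?_
  unfold pr1
  split_ifs
  · rfl
  · rw [List.eraseIdx_eq_take_drop_succ]

omit [Enc α] in
lemma iter_fst (w : α → List Game → ℕ) (M : α → ℕ) (i : ℕ) (p : α × List Game) :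
    (fun q : α × List Game => (q.1, pr1 (w q.1) (M q.1) q.2))^[i] p =
      (p.1, (pr1 (w p.1) (M p.1))^[i] p.2) := by
  induction i with
  | zero => rfl
  | succ i ih => rw [Function.iterate_succ_apply', ih, Function.iterate_succ_apply']

end PPR

open TMLib in
/-- **PPR**. -/
theorem ppr_row : PPRStmt := by
  intro α _ w M hw hM
  have hf : PTime (fun q : α × List Game => (q.1, pr1 (w q.1) (M q.1) q.2)) :=
    PTime.pair (PTime.fst PTime.id) (PPR.pr1_ptime hw hM)
  have hb : PB (fun p : α × List Game => sz p) := PB.sz_self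
  have hit := PTime.iter (s := fun p : α × List Game => p) (n := fun p => p.2.length) hf
    PTime.id (PTime.length (PTime.snd PTime.id)) hb (fun p i _ => by
      rw [PPR.iter_fst]
      have := PPR.sz_iter_le (w p.1) (M p.1) i p.2
      simp only [sz_pair]
      omega)
  refine (PTime.take (hM.comp (PTime.fst PTime.id)) (PTime.snd hit)).congr fun p => ?_
  show prn (w p.1) (M p.1) p.2 = _
  rw [PPR.iter_fst]
  rfl

end Pool.PG
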